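import Pool.Agent.Lib.MP_fcd94d_an.Prod

/-!
# Immersions of complex surfaces over a noncritical function

`M` is a complex surface with countable topology, `x` a holomorphic function on `M` without
critical points and `V` a continuous vector field without zeros, tangent to the fibres of `x`.
Suppose that some holomorphic function `z` satisfies `V z = u Q(x) ∏ q n`, where `u` is continuous
without zeros, `Q` is an entire function, not identically zero, the fibres of `x` over the zeros of
`Q` have finitely many components, and the `q n` are first integrals of `V` with simple zeros,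
whose zero sets have finitely many components; the product converges uniformly on compact sets.
Then there is a holomorphic function `g` such that `V g` has no zeros, so `(x, g) : M → ℂ²` is an
immersion.
-/

set_option autoImplicit false

open scoped Manifold

namespace Pool.Agent.Results.MP_fcd94d_an.FibreImmersion

section General

variable {E F : Type} [NormedAddCommGroup E] [NormedSpace ℂ E] [NormedAddCommGroup F]
  [NormedSpace ℂ F] {M : Type} [TopologicalSpace M] [ChartedSpace E M]

/-- The derivative of the map `f : M → F` at `p` in the direction of the tangent vector `v`. -/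
noncomputable def D (f : M → F) (p : M) (v : TangentSpace 𝓘(ℂ, E) p) : F :=
  mfderiv 𝓘(ℂ, E) 𝓘(ℂ, F) f p v

variable (E) in
/-- The map `f : M → F` is holomorphic. -/
def IsHol (f : M → F) : Prop := MDifferentiable 𝓘(ℂ, E) 𝓘(ℂ, F) f

/-- `V` is a continuous vector field on `M` without zeros. -/
structure IsField [IsManifold 𝓘(ℂ, E) 1 M] (V : (p : M) → TangentSpace 𝓘(ℂ, E) p) : Prop where
  continuous : Continuous (fun p => (⟨p, V p⟩ : TangentBundle 𝓘(ℂ, E) M))
  nonzero : ∀ p, V p ≠ 0

end General

section Surface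

variable {M : Type} [TopologicalSpace M] [ChartedSpace (EuclideanSpace ℂ (Fin 2)) M]

variable (M) in
/-- The vector fields on the complex surface `M` (of type `(1,0)`, not necessarily continuous). -/
abbrev VField : Type := (p : M) → TangentSpace 𝓘(ℂ, EuclideanSpace ℂ (Fin 2)) p

/-- `f` is a holomorphic function on the complex surface `M`. -/
def Hol (f : M → ℂ) : Prop := IsHol (EuclideanSpace ℂ (Fin 2)) f

/-- The derivative `V f` of the function `f` along the vector field `V`. -/
noncomputable def Der (V : VField M) (f : M → ℂ) (p : M) : ℂ := D f p (V p)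

/-- `p` is a critical point of `f`: the differential of `f` at `p` is zero. -/
def Crit (f : M → ℂ) (p : M) : Prop :=
  ∀ v : TangentSpace 𝓘(ℂ, EuclideanSpace ℂ (Fin 2)) p, D f p v = 0

/-- `q` is a holomorphic first integral of `V`, its zeros are simple and its zero set has finitely
many connected components. -/
structure IsFactor (V : VField M) (q : M → ℂ) : Prop where
  hol : Hol q
  integral : ∀ p, Der V q p = 0
  simple : ∀ p, q p = 0 → ¬ Crit q p
  components : Finite (ConnectedComponents {p : M | q p = 0})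

/-- `F` is a holomorphic immersion of the complex surface `M` into `ℂ²`. -/
def IsImmersion (F : M → EuclideanSpace ℂ (Fin 2)) : Prop :=
  IsHol (EuclideanSpace ℂ (Fin 2)) F ∧
    ∀ p, Function.Injective (D (E := EuclideanSpace ℂ (Fin 2)) F p)

end Surface

theorem result {M : Type} [TopologicalSpace M] [SecondCountableTopology M]
    [ChartedSpace (EuclideanSpace ℂ (Fin 2)) M]
    [IsManifold 𝓘(ℂ, EuclideanSpace ℂ (Fin 2)) 1 M]
    (V : VField M) (hV : IsField V)
    (x z : M → ℂ) (hx : Hol x) (hz : Hol z) (hdx : ∀ p, ¬ Crit x p) (hVx : ∀ p, Der V x p = 0)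
    (u : M → ℂ) (hu : Continuous u) (hu0 : ∀ p, u p ≠ 0)
    (Q : ℂ → ℂ) (hQ : Differentiable ℂ Q) (hQ0 : ∃ c, Q c ≠ 0)
    (hQfin : ∀ a, Q a = 0 → Finite (ConnectedComponents {p : M | x p = a}))
    (q : ℕ → M → ℂ) (hq : ∀ n, IsFactor V (q n))
    (hqsum : ∀ K : Set M, IsCompact K → ∃ b : ℕ → ℝ, Summable b ∧
      ∀ n, ∀ p ∈ K, ‖q n p - 1‖ ≤ b n)
    (hVz : ∀ p, Der V z p = u p * (Q (x p) * ∏' n, q n p)) :
    ∃ g : M → ℂ, Hol g ∧ (∀ p, Der V g p ≠ 0) ∧ IsImmersion (fun p => !₂[x p, g p]) := by
  have hlc : LocallyCompactSpace M := ChartedSpace.locallyCompactSpace (EuclideanSpace ℂ (Fin 2)) M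
  have hcr : ∀ (f : M → ℂ) (p : M), ¬ Crit f p →
      mfderiv 𝓘(ℂ, EuclideanSpace ℂ (Fin 2)) 𝓘(ℂ, ℂ) f p ≠ 0 := by
    intro f p hf h
    apply hf
    intro v
    show mfderiv 𝓘(ℂ, EuclideanSpace ℂ (Fin 2)) 𝓘(ℂ, ℂ) f p v = 0
    rw [h]
    rfl
  have S : Immers.Setup x V := ⟨hx, fun p => hcr x p (hdx p), hV.1, hV.2, hVx⟩
  obtain ⟨c, hc⟩ := hQ0
  obtain ⟨g, hg, hVg⟩ := Immers.exists_of_prod S hQ hc hQfin
    (fun n => ⟨(hq n).hol, (hq n).integral, fun p hp => hcr (q n) p ((hq n).simple p hp),
      (hq n).components⟩) hqsum hz hu hu0 hVz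
  have hF : (fun p => Immers.T2.symm (x p, g p)) = fun p => !₂[x p, g p] := by
    funext p
    ext i
    fin_cases i <;> rfl
  have h7 := Immers.immersion_of S hg hVg
  rw [hF] at h7
  exact ⟨g, hg, hVg, h7.1, h7.2⟩

end Pool.Agent.Results.MP_fcd94d_an.FibreImmersion
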