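import Mathlib
import Pool.Agent.Lib.MP_fcd94d_an.Modif

/-!
# MP_fcd94d_an, Q1: immersions of some Stein manifolds of every dimension

`M ⊆ ℂ^N × ℂ × ℂ^r` is given by the equations `f_i(z) y_i = P_i(a(z) u)`, where `a` and the `f_i` are
arbitrary entire functions and the polynomials `P_i` do not vanish at `0` and have a squarefree
product. Then `M` is a closed complex submanifold of dimension `n = N + 1`, and it has a holomorphic
immersion in `ℂ^n`.

Proof. Iterating `H ↦ exp (2 π i H / H c) - 1` one gets an entire function `H` without critical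
points which vanishes at `0` and at the roots of all the `P_i`, so `H(s) = s q(s) ∏ P_i(s)` with `q`
entire. Put `F(z, u, y) = (z, u q(a(z) u) ∏ y_i)`. Where all `f_i(z)` are nonzero, the last
component is `H(a u) / (a ∏ f_i)`, whose derivative with respect to `u` is `H'(a u) / ∏ f_i`; where
`f_k(z) = 0` the number `a(z) u` is a root of `P_k`, the tangent space is spanned by the kernel of
`dz` in direction `y_k`, and the derivative is `u q ∏_{j ≠ k} y_j`, which is nonzero.
-/

namespace Pool.Agent.Results.MP_fcd94d_an.Modifications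

open Pool.Agent.MP_fcd94d_an

theorem result (N r : ℕ) (a : (Fin N → ℂ) → ℂ) (f : Fin r → (Fin N → ℂ) → ℂ)
    (P : Fin r → Polynomial ℂ) (ha : Differentiable ℂ a) (hf : ∀ i, Differentiable ℂ (f i))
    (hP : Squarefree (∏ i, P i)) (hP0 : ∀ i, (P i).eval 0 ≠ 0) :
    Differentiable ℂ (equations a f P) ∧
    (∀ p, equations a f P p = 0 → Function.Surjective (fderiv ℂ (equations a f P) p)) ∧
    ∃ F : (Fin N → ℂ) × ℂ × (Fin r → ℂ) → (Fin N → ℂ) × ℂ, Differentiable ℂ F ∧
      ∀ p, equations a f P p = 0 →
        ∀ v, fderiv ℂ (equations a f P) p v = 0 → fderiv ℂ F p v = 0 → v = 0 := by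
  obtain ⟨F, hF, h⟩ := main N r a f P ha hf hP hP0
  exact ⟨differentiable_equations ha hf, fun p hp => (h p hp).1, F, hF, fun p hp => (h p hp).2⟩

end Pool.Agent.Results.MP_fcd94d_an.Modifications
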