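import Pool.Agent.Lib.MP_fcd94d_an_PR.Main

/-!
# Immersions of the total space of a normal line bundle

`M` is a complex manifold of dimension `k + 1` and `(f, g) : M → ℂ^k × ℂ²` is a holomorphic
immersion. A holomorphic family `P x` of nonzero projections of `ℂ²`, such that `P x` maps `dg(v)`
to zero if `df(v) = 0`, describes a line `P x (ℂ²)` which is normal to the immersion at `x`. The
total space of the normal line bundle is `{(x, y) ∈ M × ℂ² | P x y = y}`, a complex manifold of
dimension `k + 2`. We prove that it has a holomorphic immersion into `ℂ^(k + 2)`; more generally,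
every complex manifold `N` with an immersion into it has one.

If the normal line bundle is trivial, the total space is `M × ℂ`.
-/

set_option autoImplicit false

open scoped Manifold

namespace Pool.Agent.Results.MP_fcd94d_an.NormalBundle

/-- The space `ℂ^n`. -/
abbrev C (n : ℕ) : Type := EuclideanSpace ℂ (Fin n)

section General

variable {E F : Type} [NormedAddCommGroup E] [NormedSpace ℂ E] [NormedAddCommGroup F]
  [NormedSpace ℂ F] {M : Type} [TopologicalSpace M] [ChartedSpace E M]

/-- The derivative of the map `f : M → F` at `x` in the direction of the tangent vector `v`. -/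
noncomputable def D (f : M → F) (x : M) (v : TangentSpace 𝓘(ℂ, E) x) : F :=
  mfderiv 𝓘(ℂ, E) 𝓘(ℂ, F) f x v

/-- The derivative of the map `r : N → M` at `n` in the direction of the tangent vector `t`. -/
noncomputable def DMap {N : Type} [TopologicalSpace N] [ChartedSpace F N] (r : N → M) (n : N)
    (t : TangentSpace 𝓘(ℂ, F) n) : TangentSpace 𝓘(ℂ, E) (r n) :=
  mfderiv 𝓘(ℂ, F) 𝓘(ℂ, E) r n t

end General

section Manifolds

variable (n m : ℕ) {M N : Type} [TopologicalSpace M] [ChartedSpace (C n) M]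
  [TopologicalSpace N] [ChartedSpace (C m) N]

/-- The tangent space of the `n`-dimensional complex manifold `M` at the point `x`. -/
def Tan (x : M) : Type := TangentSpace 𝓘(ℂ, C n) x

/-- The function `f` on `M` is holomorphic. -/
def IsHolFun (f : M → ℂ) : Prop := MDifferentiable 𝓘(ℂ, C n) 𝓘(ℂ, ℂ) f

/-- The map `f : M → ℂ^m` is holomorphic. -/
def IsHol (f : M → C m) : Prop := MDifferentiable 𝓘(ℂ, C n) 𝓘(ℂ, C m) f

/-- The map `r : M → N` is holomorphic. -/
def IsHolMap (r : M → N) : Prop := MDifferentiable 𝓘(ℂ, C n) 𝓘(ℂ, C m) r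

variable {n m}

/-- The derivative of the map `f : M → ℂ^m` at `x` in the direction of the tangent vector `v`. -/
noncomputable def d (f : M → C m) (x : M) (v : Tan n x) : C m := D (E := C n) f x v

/-- The derivative of the map `r : M → N` at `x` in the direction of the tangent vector `v`. -/
noncomputable def dMap (r : M → N) (x : M) (v : Tan n x) : Tan m (r x) :=
  DMap (E := C m) (F := C n) r x v

end Manifolds

/-- The product of the matrix `A` and the vector `y`. -/
def mul (A : Matrix (Fin 2) (Fin 2) ℂ) (y : C 2) : C 2 := WithLp.toLp 2 (A.mulVec y.ofLp)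

section Data

variable {k : ℕ} {M : Type} [TopologicalSpace M] [ChartedSpace (C (k + 1)) M]

/-- The map `(f, g) : M → ℂ^k × ℂ²` is a holomorphic immersion. -/
structure IsImmersion (f : M → C k) (g : M → C 2) : Prop where
  hol_f : IsHol (k + 1) k f
  hol_g : IsHol (k + 1) 2 g
  inj : ∀ x : M, Function.Injective fun v : Tan (k + 1) x => (d f x v, d g x v)

/-- The matrices `P x` describe a line bundle normal to the immersion `(f, g)`: `P` is a holomorphic
family of nonzero projections of `ℂ²`, and `P x` maps `dg(v)` to zero if `df(v) = 0`. -/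
structure IsNormal (f : M → C k) (g : M → C 2) (P : M → Matrix (Fin 2) (Fin 2) ℂ) : Prop where
  hol : ∀ i j, IsHolFun (k + 1) fun x => P x i j
  proj : ∀ x : M, P x * P x = P x
  nonzero : ∀ x : M, P x ≠ 0
  normal : ∀ (x : M) (v : Tan (k + 1) x), d f x v = 0 → mul (P x) (d g x v) = 0

/-- `(r, y)` is a holomorphic immersion of the `l`-dimensional manifold `N` into the total space
`{(x, y) | P x y = y}` of the line bundle, a submanifold of `M × ℂ²`. -/
structure IntoTotalSpace (k l : ℕ) {M : Type} [TopologicalSpace M] [ChartedSpace (C (k + 1)) M]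
    {N : Type} [TopologicalSpace N] [ChartedSpace (C l) N] (P : M → Matrix (Fin 2) (Fin 2) ℂ)
    (r : N → M) (y : N → C 2) : Prop where
  hol_r : IsHolMap l (k + 1) r
  hol_y : IsHol l 2 y
  mem : ∀ n : N, mul (P (r n)) (y n) = y n
  inj : ∀ n : N, Function.Injective fun t : Tan l n => ((dMap r n t : Tan (k + 1) (r n)), d y n t)

end Data

/-- The `l`-dimensional complex manifold `N` has a holomorphic immersion into `ℂ^m`. -/
def Immersible (l m : ℕ) (N : Type) [TopologicalSpace N] [ChartedSpace (C l) N] : Prop :=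
  ∃ F : N → C m, IsHol l m F ∧ ∀ n : N, Function.Injective (d (n := l) F n)

/-- The matrix `A` as a continuous linear map. -/
private noncomputable def lin : Matrix (Fin 2) (Fin 2) ℂ →ₗ[ℂ] (C 2 →L[ℂ] C 2) :=
  (LinearMap.toContinuousLinearMap (𝕜 := ℂ) (E := C 2) (F' := C 2)).toLinearMap ∘ₗ
    (Matrix.toEuclideanLin (𝕜 := ℂ) (m := Fin 2) (n := Fin 2)).toLinearMap

private theorem lin_apply (A : Matrix (Fin 2) (Fin 2) ℂ) (y : C 2) : lin A y = mul A y := rfl

theorem result {k l : ℕ} {M : Type} [TopologicalSpace M] [ChartedSpace (C (k + 1)) M]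
    [IsManifold 𝓘(ℂ, C (k + 1)) 1 M] (f : M → C k) (g : M → C 2) (hfg : IsImmersion f g)
    (P : M → Matrix (Fin 2) (Fin 2) ℂ) (hP : IsNormal f g P)
    {N : Type} [TopologicalSpace N] [ChartedSpace (C l) N] [IsManifold 𝓘(ℂ, C l) 1 N]
    (r : N → M) (y : N → C 2) (hN : IntoTotalSpace k l P r y) : Immersible l (k + 2) N := by
  have hinj : ∀ (x : M) (v : TangentSpace 𝓘(ℂ, C (k + 1)) x), ImmPR.dd f x v = 0 →
      ImmPR.dd g x v = 0 → v = 0 := by
    intro x v h1 h2
    have h3 : ImmPR.dd f x (0 : TangentSpace 𝓘(ℂ, C (k + 1)) x) = 0 := map_zero _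
    have h4 : ImmPR.dd g x (0 : TangentSpace 𝓘(ℂ, C (k + 1)) x) = 0 := map_zero _
    exact hfg.inj x (a₁ := v) (a₂ := (0 : TangentSpace 𝓘(ℂ, C (k + 1)) x))
      (Prod.ext (h1.trans h3.symm) (h2.trans h4.symm))
  have hsingle : ∀ A : Matrix (Fin 2) (Fin 2) ℂ,
      lin A = ∑ i, ∑ j, A i j • lin (Matrix.single i j 1) := by
    intro A
    conv_lhs => rw [Matrix.matrix_eq_sum_single A]
    simp only [map_sum]
    refine Finset.sum_congr rfl fun i _ => Finset.sum_congr rfl fun j _ => ?_
    rw [← map_smul, Matrix.smul_single, smul_eq_mul, mul_one]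
  have hPhol : MDifferentiable 𝓘(ℂ, C (k + 1)) 𝓘(ℂ, C 2 →L[ℂ] C 2) fun x => lin (P x) := by
    intro x
    have h1 : ∀ i j, MDifferentiableAt 𝓘(ℂ, C (k + 1)) 𝓘(ℂ, C 2 →L[ℂ] C 2)
        (fun x => P x i j • lin (Matrix.single i j 1)) x := by
      intro i j
      exact (ImmPR.dd_smul (hP.hol i j x)
        (mdifferentiableAt_const (c := lin (Matrix.single i j 1))) 0).1
    have h2 : (fun x => lin (P x)) = fun x =>
        (P x 0 0 • lin (Matrix.single 0 0 1) + P x 0 1 • lin (Matrix.single 0 1 1)) +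
        (P x 1 0 • lin (Matrix.single 1 0 1) + P x 1 1 • lin (Matrix.single 1 1 1)) := by
      funext x
      rw [hsingle (P x)]
      simp [Fin.sum_univ_two]
    rw [h2]
    exact (ImmPR.dd_add (ImmPR.dd_add (h1 0 0) (h1 0 1) 0).1
      (ImmPR.dd_add (h1 1 0) (h1 1 1) 0).1 0).1
  have hD : ImmPR.Dat (E := C (k + 1)) f g fun x => lin (P x) := by
    refine ⟨hfg.hol_f, hfg.hol_g, hPhol, hinj, ?_, ?_, ?_⟩
    · intro x y
      have h1 : mul (P x) (mul (P x) y) = mul (P x * P x) y := by
        unfold mul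
        rw [Matrix.mulVec_mulVec]
      rw [lin_apply, lin_apply, h1, hP.proj]
    · intro x h0
      apply hP.nonzero x
      ext i j
      have h1 := congrArg (fun T : C 2 →L[ℂ] C 2 => (T (EuclideanSpace.single j 1)) i) h0
      rw [lin_apply] at h1
      simpa [mul] using h1
    · intro x v hv
      exact hP.normal x v hv
  obtain ⟨F, hF, hFi⟩ := hD.immersion (E' := C l) (by simp) (by simp) hN.hol_r hN.hol_y hN.mem
    (by
      intro n t h1 h2
      have h3 : ImmPR.dd y n (0 : TangentSpace 𝓘(ℂ, C l) n) = 0 := map_zero _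
      have h4 : mfderiv 𝓘(ℂ, C l) 𝓘(ℂ, C (k + 1)) r n (0 : TangentSpace 𝓘(ℂ, C l) n) = 0 :=
        map_zero _
      exact hN.inj n (a₁ := t) (a₂ := (0 : TangentSpace 𝓘(ℂ, C l) n))
        (Prod.ext (h1.trans h4.symm) (h2.trans h3.symm)))
  have e : (C k × C 2) ≃L[ℂ] C (k + 2) :=
    ContinuousLinearEquiv.ofFinrankEq (by simp [Module.finrank_prod])
  have he : ∀ (n : N) (t : TangentSpace 𝓘(ℂ, C l) n),
      ImmPR.dd (fun n => e (F n)) n t = e (ImmPR.dd F n t) := by
    intro n t
    rw [ImmPR.dd_comp (Φ := e) (hF n) e.differentiableAt t, ContinuousLinearEquiv.fderiv]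
    rfl
  refine ⟨fun n => e (F n), ?_, ?_⟩
  · intro n
    exact e.differentiableAt.mdifferentiableAt.comp n (hF n)
  · intro n (t : TangentSpace 𝓘(ℂ, C l) n) (t' : TangentSpace 𝓘(ℂ, C l) n) htt
    have h1 : ImmPR.dd (fun n => e (F n)) n t = ImmPR.dd (fun n => e (F n)) n t' := htt
    rw [he, he] at h1
    have h2 := e.injective h1
    have h3 : ImmPR.dd F n (t - t') = 0 := by
      rw [ImmPR.dd_vsub, h2, sub_self]
    exact sub_eq_zero (G := TangentSpace 𝓘(ℂ, C l) n).1 (hFi n _ h3)

end Pool.Agent.Results.MP_fcd94d_an.NormalBundle
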