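import Mathlib
import Pool.Agent.Lib.MP_fcd94d_an_SL.Det

/-!
# MP_fcd94d_an, Q1: immersions of `SL_m (ℂ)` and of the hypersurfaces `x * b z + d z = 1`

Let `φ` be an entire action of the additive group `ℂ` on `ℂ ^ n`, and let `b`, `d` be entire functions
on `ℂ ^ n` with `b (φ (t, z)) = exp t * b z` and `d (φ (t, z)) = exp t * d z`. Then
`M = {x * b z + d z = 1}` is a closed complex submanifold of `ℂ ^ (n + 1)` of dimension `n`, and it has
a holomorphic immersion in `ℂ ^ n`.

The main example is `SL_m (ℂ) = {det = 1}`, `m ≥ 2`, with `n = m ^ 2 - 1`: here `x` is the first entry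
of the matrix, `z` are the other entries, `b` is the first cofactor and `φ` is the scaling of the
second row (see `det_immersion` in `Pool/Agent/Lib/MP_fcd94d_an_SL/Det.lean`).

Proof. Let `h` be the entire function with `s ^ 2 * h' s = exp s - 1 - s`, and
`τ = h (b z) - x`, `F (x, z) = φ (τ (x, z), z)`. If the differential of `F` kills the tangent vector
`v = (v_x, v_z)` then `v_z = - dτ(v) E` with the vector field `E` of the action, so `db(v_z) =
- dτ(v) b`, `dd(v_z) = - dτ(v) d`. As `v` is tangent to `M`, `b v_x = dτ(v)`, and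
`dτ(v) = h'(b) db(v_z) - v_x` gives `exp b * v_x = (1 + b + b ^ 2 h'(b)) v_x = 0`.
-/

namespace Pool.Agent.Results.MP_fcd94d_an.SpecialLinear

open Pool.Agent.MP_fcd94d_an.KR Pool.Agent.MP_fcd94d_an.SL

theorem result (n : ℕ) (φ : ℂ × (Fin n → ℂ) → (Fin n → ℂ)) (b d : (Fin n → ℂ) → ℂ)
    (hφ : Flow φ) (hb : WeightOne φ b) (hd : WeightOne φ d) :
    SmoothZeros (linEq b d) ∧
    ∃ F : ℂ × (Fin n → ℂ) → (Fin n → ℂ), ImmersesZeros (linEq b d) F :=
  ⟨core_smooth hφ hb hd, core_immersion hφ hb hd⟩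

end Pool.Agent.Results.MP_fcd94d_an.SpecialLinear
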